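import Mathlib

/-!
Alexander-Spanier cochains (arbitrary real functions near the diagonal) of degree 1 and 2 on
euclidean space: Poincare lemmas on bounded convex sets, and compactly supported versions.
-/

set_option autoImplicit false

namespace Run7.h255.OQHC

open Metric Set Filter Topology

section basics

variable {X : Type*}

/-- `b` is a 1-cocycle for triples in `W`. -/
def Z1 (b : X → X → ℝ) (W : Set X) : Prop :=
  ∀ y ∈ W, ∀ z ∈ W, ∀ w ∈ W, b z w - b y w + b y z = 0

/-- `a` is a 2-cocycle for quadruples in `W`. -/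
def Z2 (a : X → X → X → ℝ) (W : Set X) : Prop :=
  ∀ y ∈ W, ∀ z ∈ W, ∀ w ∈ W, ∀ v ∈ W, a z w v - a y w v + a y z v - a y z w = 0

/-- `b = d f` on pairs in `W`. -/
def E1 (f : X → ℝ) (b : X → X → ℝ) (W : Set X) : Prop :=
  ∀ y ∈ W, ∀ z ∈ W, b y z = f z - f y

/-- `a = d b` on triples in `W`. -/
def E2 (b : X → X → ℝ) (a : X → X → X → ℝ) (W : Set X) : Prop :=
  ∀ y ∈ W, ∀ z ∈ W, ∀ w ∈ W, b z w - b y w + b y z = a y z w

theorem Z1.mono {b : X → X → ℝ} {W W' : Set X} (h : Z1 b W) (hs : W' ⊆ W) : Z1 b W' :=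
  fun y hy z hz w hw => h y (hs hy) z (hs hz) w (hs hw)

theorem Z2.mono {a : X → X → X → ℝ} {W W' : Set X} (h : Z2 a W) (hs : W' ⊆ W) : Z2 a W' :=
  fun y hy z hz w hw v hv => h y (hs hy) z (hs hz) w (hs hw) v (hs hv)

theorem E1.mono {f : X → ℝ} {b : X → X → ℝ} {W W' : Set X} (h : E1 f b W) (hs : W' ⊆ W) :
    E1 f b W' :=
  fun y hy z hz => h y (hs hy) z (hs hz)

theorem E2.mono {b : X → X → ℝ} {a : X → X → X → ℝ} {W W' : Set X} (h : E2 b a W)
    (hs : W' ⊆ W) : E2 b a W' :=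
  fun y hy z hz w hw => h y (hs hy) z (hs hz) w (hs hw)

theorem Z1.self {b : X → X → ℝ} {W : Set X} (h : Z1 b W) {x : X} (hx : x ∈ W) : b x x = 0 := by
  have := h x hx x hx x hx
  linarith

end basics

/-- From a local property to a uniform one on a compact set. -/
theorem unif {X : Type*} [PseudoMetricSpace X] {K : Set X} (hK : IsCompact K) (P : Set X → Prop)
    (mono : ∀ W W' : Set X, P W → W' ⊆ W → P W')
    (h : ∀ x ∈ K, ∃ W ∈ 𝓝 x, P W) : ∃ δ > 0, ∀ x ∈ K, P (ball x δ) := by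
  choose! W hW hP using h
  obtain ⟨δ, hδ, H⟩ := lebesgue_number_lemma_of_metric (c := fun x : K => interior (W x)) hK
    (fun _ => isOpen_interior)
    (fun x hx => mem_iUnion.2 ⟨⟨x, hx⟩, mem_interior_iff_mem_nhds.2 (hW x hx)⟩)
  refine ⟨δ, hδ, fun x hx => ?_⟩
  obtain ⟨y, hy⟩ := H x hx
  exact mono _ _ (hP y.1 y.2) (hy.trans interior_subset)

section convex

variable {E : Type*} [NormedAddCommGroup E] [NormedSpace ℝ E]

/-- the contraction at time `i / N` -/
noncomputable def con (x0 : E) (N i : ℕ) (x : E) : E := x0 + ((i : ℝ) / N) • (x - x0)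

theorem con_zero (x0 : E) (N : ℕ) (x : E) : con x0 N 0 x = x0 := by simp [con]

theorem con_self (x0 : E) (N : ℕ) (hN : 0 < N) (x : E) : con x0 N N x = x := by
  have : (N : ℝ) ≠ 0 := by positivity
  simp [con, this]

theorem con_mem {C : Set E} (hC : Convex ℝ C) {x0 x : E} (h0 : x0 ∈ C) (hx : x ∈ C) (N i : ℕ)
    (hN : 0 < N) (hi : i ≤ N) : con x0 N i x ∈ C := by
  have h1 : 0 ≤ (i : ℝ) / N := by positivity
  have h2 : (i : ℝ) / N ≤ 1 := by
    rw [div_le_one (by positivity)]; exact_mod_cast hi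
  have := hC.add_smul_sub_mem h0 hx ⟨h1, h2⟩
  simpa [con] using this

theorem con_dist (x0 x y : E) (N i : ℕ) (hN : 0 < N) (hi : i ≤ N) :
    dist (con x0 N i x) (con x0 N i y) ≤ dist x y := by
  have h1 : 0 ≤ (i : ℝ) / N := by positivity
  have h2 : (i : ℝ) / N ≤ 1 := by
    rw [div_le_one (by positivity)]; exact_mod_cast hi
  have h3 : con x0 N i x - con x0 N i y = ((i : ℝ) / N) • (x - y) := by
    simp only [con]; rw [add_sub_add_left_eq_sub, ← smul_sub]; congr 1; abel
  rw [dist_eq_norm, dist_eq_norm, h3, norm_smul, Real.norm_of_nonneg h1]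
  calc (i : ℝ) / N * ‖x - y‖ ≤ 1 * ‖x - y‖ := by gcongr
    _ = ‖x - y‖ := one_mul _

theorem con_step (x0 x : E) (N i : ℕ) (hN : 0 < N) :
    dist (con x0 N i x) (con x0 N (i + 1) x) ≤ ‖x - x0‖ / N := by
  have h3 : con x0 N (i + 1) x - con x0 N i x = ((1 : ℝ) / N) • (x - x0) := by
    simp only [con]
    rw [add_sub_add_left_eq_sub, ← sub_smul]
    congr 1
    push_cast
    ring
  rw [dist_comm, dist_eq_norm, h3, norm_smul, Real.norm_of_nonneg (by positivity)]
  apply le_of_eq; ring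

/-- Uniform Poincare lemma in degree 1 on a bounded convex set. -/
theorem poin1 {C : Set E} (hC : Convex ℝ C) (hb : Bornology.IsBounded C)
    (b : E → E → ℝ) (δ : ℝ) (hδ : 0 < δ)
    (h : ∀ x ∈ C, Z1 b (ball x δ ∩ C)) :
    ∃ f : E → ℝ, ∀ x ∈ C, ∀ y ∈ C, dist x y < δ / 3 → b x y = f y - f x := by
  rcases C.eq_empty_or_nonempty with rfl | ⟨x0, h0⟩
  · exact ⟨fun _ => 0, by simp⟩
  obtain ⟨D, hD⟩ := hb.subset_closedBall x0
  obtain ⟨N, hN⟩ := exists_nat_gt (max 1 (D / (δ / 3)))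
  have hN1 : (1 : ℝ) < N := lt_of_le_of_lt (le_max_left _ _) hN
  have hN0 : 0 < N := by
    have : (0 : ℝ) < N := by linarith
    exact_mod_cast this
  have hND : D / N < δ / 3 := by
    have h1 : D / (δ / 3) < N := lt_of_le_of_lt (le_max_right _ _) hN
    rw [div_lt_iff₀ (by positivity)] at h1 ⊢
    linarith
  have hstep : ∀ x ∈ C, ∀ i, dist (con x0 N i x) (con x0 N (i + 1) x) < δ / 3 := by
    intro x hx i
    refine lt_of_le_of_lt (con_step x0 x N i hN0) ?_
    have : ‖x - x0‖ ≤ D := by simpa [dist_eq_norm] using hD hx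
    refine lt_of_le_of_lt ?_ hND
    gcongr
  refine ⟨fun x => ∑ i ∈ Finset.range N, b (con x0 N i x) (con x0 N (i + 1) x), ?_⟩
  intro x hx y hy hxy
  have key : ∀ i ∈ Finset.range N,
      b (con x0 N i y) (con x0 N (i + 1) y) - b (con x0 N i x) (con x0 N (i + 1) x)
        = b (con x0 N (i + 1) x) (con x0 N (i + 1) y) - b (con x0 N i x) (con x0 N i y) := by
    intro i hi
    have hi' : i + 1 ≤ N := Finset.mem_range.1 hi
    have m1 := con_mem hC h0 hx N i hN0 (by omega)
    have m2 := con_mem hC h0 hy N i hN0 (by omega)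
    have m3 := con_mem hC h0 hx N (i + 1) hN0 hi'
    have m4 := con_mem hC h0 hy N (i + 1) hN0 hi'
    have d1 := lt_of_le_of_lt (con_dist x0 x y N i hN0 (by omega)) hxy
    have d2 := lt_of_le_of_lt (con_dist x0 x y N (i + 1) hN0 hi') hxy
    have d3 := hstep x hx i
    have d4 := hstep y hy i
    have d5 : dist (con x0 N i x) (con x0 N (i + 1) y) < δ := by
      calc dist (con x0 N i x) (con x0 N (i + 1) y)
          ≤ dist (con x0 N i x) (con x0 N i y) + dist (con x0 N i y) (con x0 N (i + 1) y) :=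
            dist_triangle _ _ _
        _ < δ := by linarith
    have b1 : con x0 N i x ∈ ball (con x0 N i x) δ ∩ C := ⟨mem_ball_self hδ, m1⟩
    have b2 : con x0 N i y ∈ ball (con x0 N i x) δ ∩ C :=
      ⟨by rw [mem_ball, dist_comm]; linarith, m2⟩
    have b3 : con x0 N (i + 1) x ∈ ball (con x0 N i x) δ ∩ C :=
      ⟨by rw [mem_ball, dist_comm]; linarith, m3⟩
    have b4 : con x0 N (i + 1) y ∈ ball (con x0 N i x) δ ∩ C :=
      ⟨by rw [mem_ball, dist_comm]; linarith, m4⟩
    have e1 := h _ m1 _ b1 _ b2 _ b4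
    have e2 := h _ m1 _ b1 _ b3 _ b4
    linarith
  have h2 := Finset.sum_congr rfl key
  rw [Finset.sum_sub_distrib] at h2
  have h3 : ∑ i ∈ Finset.range N, (b (con x0 N (i + 1) x) (con x0 N (i + 1) y)
      - b (con x0 N i x) (con x0 N i y)) = b x y - b x0 x0 := by
    rw [Finset.sum_range_sub (fun i => b (con x0 N i x) (con x0 N i y)), con_self _ _ hN0,
      con_self _ _ hN0, con_zero, con_zero]
  have h4 : b x0 x0 = 0 := (h x0 h0).self ⟨mem_ball_self hδ, h0⟩
  rw [h3, h4] at h2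
  linarith

/-- the prism operator -/
def pr (a : E → E → E → ℝ) (f g : E → E) (x y : E) : ℝ :=
  a (f x) (f y) (g y) - a (f x) (g x) (g y)

/-- Uniform Poincare lemma in degree 2 on a bounded convex set. -/
theorem poin2 {C : Set E} (hC : Convex ℝ C) (hb : Bornology.IsBounded C)
    (a : E → E → E → ℝ) (δ : ℝ) (hδ : 0 < δ)
    (h : ∀ x ∈ C, Z2 a (ball x δ ∩ C)) :
    ∃ b : E → E → ℝ, ∀ x ∈ C, ∀ y ∈ C, ∀ z ∈ C, dist x y < δ / 3 → dist x z < δ / 3 →
      b y z - b x z + b x y = a x y z := by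
  rcases C.eq_empty_or_nonempty with rfl | ⟨x0, h0⟩
  · exact ⟨fun _ _ => 0, by simp⟩
  obtain ⟨D, hD⟩ := hb.subset_closedBall x0
  obtain ⟨N, hN⟩ := exists_nat_gt (max 1 (D / (δ / 3)))
  have hN1 : (1 : ℝ) < N := lt_of_le_of_lt (le_max_left _ _) hN
  have hN0 : 0 < N := by
    have : (0 : ℝ) < N := by linarith
    exact_mod_cast this
  have hND : D / N < δ / 3 := by
    have h1 : D / (δ / 3) < N := lt_of_le_of_lt (le_max_right _ _) hN
    rw [div_lt_iff₀ (by positivity)] at h1 ⊢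
    linarith
  have hstep : ∀ x ∈ C, ∀ i, dist (con x0 N i x) (con x0 N (i + 1) x) < δ / 3 := by
    intro x hx i
    refine lt_of_le_of_lt (con_step x0 x N i hN0) ?_
    have : ‖x - x0‖ ≤ D := by simpa [dist_eq_norm] using hD hx
    refine lt_of_le_of_lt ?_ hND
    gcongr
  refine ⟨fun x y => a x0 x0 x0
    - ∑ i ∈ Finset.range N, pr a (con x0 N i) (con x0 N (i + 1)) x y, ?_⟩
  intro x hx y hy z hz hxy hxz
  have key : ∀ i ∈ Finset.range N,
      pr a (con x0 N i) (con x0 N (i + 1)) y z - pr a (con x0 N i) (con x0 N (i + 1)) x z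
        + pr a (con x0 N i) (con x0 N (i + 1)) x y
      = a (con x0 N i x) (con x0 N i y) (con x0 N i z)
        - a (con x0 N (i + 1) x) (con x0 N (i + 1) y) (con x0 N (i + 1) z) := by
    intro i hi
    have hi' : i + 1 ≤ N := Finset.mem_range.1 hi
    have m1 := con_mem hC h0 hx N i hN0 (by omega)
    have m2 := con_mem hC h0 hy N i hN0 (by omega)
    have m3 := con_mem hC h0 hz N i hN0 (by omega)
    have m4 := con_mem hC h0 hx N (i + 1) hN0 hi'
    have m5 := con_mem hC h0 hy N (i + 1) hN0 hi'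
    have m6 := con_mem hC h0 hz N (i + 1) hN0 hi'
    have d1 := lt_of_le_of_lt (con_dist x0 x y N i hN0 (by omega)) hxy
    have d1' := lt_of_le_of_lt (con_dist x0 x z N i hN0 (by omega)) hxz
    have d3 := hstep x hx i
    have d4 := hstep y hy i
    have d5 := hstep z hz i
    have b1 : con x0 N i x ∈ ball (con x0 N i x) δ ∩ C := ⟨mem_ball_self hδ, m1⟩
    have b2 : con x0 N i y ∈ ball (con x0 N i x) δ ∩ C :=
      ⟨by rw [mem_ball, dist_comm]; linarith, m2⟩
    have b3 : con x0 N i z ∈ ball (con x0 N i x) δ ∩ C :=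
      ⟨by rw [mem_ball, dist_comm]; linarith, m3⟩
    have b4 : con x0 N (i + 1) x ∈ ball (con x0 N i x) δ ∩ C :=
      ⟨by rw [mem_ball, dist_comm]; linarith, m4⟩
    have b5 : con x0 N (i + 1) y ∈ ball (con x0 N i x) δ ∩ C := by
      refine ⟨?_, m5⟩
      rw [mem_ball, dist_comm]
      linarith [dist_triangle (con x0 N i x) (con x0 N i y) (con x0 N (i + 1) y)]
    have b6 : con x0 N (i + 1) z ∈ ball (con x0 N i x) δ ∩ C := by
      refine ⟨?_, m6⟩
      rw [mem_ball, dist_comm]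
      linarith [dist_triangle (con x0 N i x) (con x0 N i z) (con x0 N (i + 1) z)]
    have e1 := h _ m1 _ b1 _ b2 _ b3 _ b6
    have e2 := h _ m1 _ b1 _ b2 _ b5 _ b6
    have e3 := h _ m1 _ b1 _ b4 _ b5 _ b6
    simp only [pr]
    linarith
  have h2 := Finset.sum_congr rfl key
  rw [Finset.sum_add_distrib, Finset.sum_sub_distrib] at h2
  have h3 : ∑ i ∈ Finset.range N, (a (con x0 N i x) (con x0 N i y) (con x0 N i z)
        - a (con x0 N (i + 1) x) (con x0 N (i + 1) y) (con x0 N (i + 1) z))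
      = a x0 x0 x0 - a x y z := by
    rw [Finset.sum_range_sub' (fun i => a (con x0 N i x) (con x0 N i y) (con x0 N i z)),
      con_self _ _ hN0, con_self _ _ hN0, con_self _ _ hN0, con_zero, con_zero, con_zero]
  rw [h3] at h2
  linarith

/-- A function with equal values at points of a convex set at distance less than `δ` is
constant there. -/
theorem const_of_step {C : Set E} (hC : Convex ℝ C) (g : E → ℝ) (δ : ℝ) (hδ : 0 < δ)
    (h : ∀ x ∈ C, ∀ y ∈ C, dist x y < δ → g x = g y) : ∀ x ∈ C, ∀ y ∈ C, g x = g y := by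
  intro x hx y hy
  obtain ⟨N, hN⟩ := exists_nat_gt (max 1 (‖y - x‖ / δ))
  have hN1 : (1 : ℝ) < N := lt_of_le_of_lt (le_max_left _ _) hN
  have hN0 : 0 < N := by
    have : (0 : ℝ) < N := by linarith
    exact_mod_cast this
  have hND : ‖y - x‖ / N < δ := by
    have h1 : ‖y - x‖ / δ < N := lt_of_le_of_lt (le_max_right _ _) hN
    rw [div_lt_iff₀ (by positivity)] at h1 ⊢
    linarith
  have key : ∀ i ≤ N, g x = g (con x N i y) := by
    intro i
    induction i with
    | zero => intro _; rw [con_zero]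
    | succ i ih =>
      intro hi
      rw [ih (by omega)]
      exact h _ (con_mem hC hx hy N i hN0 (by omega)) _ (con_mem hC hx hy N (i + 1) hN0 hi)
        (lt_of_le_of_lt (con_step x y N i hN0) hND)
  have := key N le_rfl
  rwa [con_self _ _ hN0] at this

end convex

section glue

/-- Gluing of primitives over a covering whose nerve is the boundary of a cross polytope. -/
theorem glue {E : Type*} {n : ℕ} (hn : 3 ≤ n) (C : Fin n × Bool → Set E)
    (f : Fin n × Bool → E → ℝ)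
    (H : ∀ s t, s.1 ≠ t.1 → ∀ x ∈ C s ∩ C t, ∀ y ∈ C s ∩ C t,
      f s x - f t x = f s y - f t y)
    (T : ∀ s t u : Fin n × Bool, s.1 ≠ t.1 → s.1 ≠ u.1 → t.1 ≠ u.1 →
      (C s ∩ C t ∩ C u).Nonempty) :
    ∃ k : Fin n × Bool → ℝ, ∀ s t, s.1 ≠ t.1 → ∀ x ∈ C s ∩ C t,
      f s x - k s = f t x - k t := by
  classical
  let i0 : Fin n := ⟨0, by omega⟩
  let i1 : Fin n := ⟨1, by omega⟩
  let i2 : Fin n := ⟨2, by omega⟩
  have h01 : i0 ≠ i1 := by simp [i0, i1]
  have h02 : i0 ≠ i2 := by simp [i0, i2]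
  have h12 : i1 ≠ i2 := by simp [i1, i2]
  let o : Fin n × Bool := (i0, true)
  let u1 : Fin n × Bool := (i1, true)
  let u2 : Fin n × Bool := (i2, true)
  let val : Fin n × Bool → Fin n × Bool → ℝ := fun s t =>
    if h : (C s ∩ C t).Nonempty then f s h.some - f t h.some else 0
  have val_eq : ∀ s t, s.1 ≠ t.1 → ∀ x ∈ C s ∩ C t, val s t = f s x - f t x := by
    intro s t hst x hx
    have h : (C s ∩ C t).Nonempty := ⟨x, hx⟩
    simp only [val, dif_pos h]
    exact H s t hst _ h.some_mem _ hx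
  have coc : ∀ s t u : Fin n × Bool, s.1 ≠ t.1 → s.1 ≠ u.1 → t.1 ≠ u.1 →
      val s t + val t u = val s u := by
    intro s t u h1 h2 h3
    obtain ⟨x, ⟨hs, ht⟩, hu⟩ := T s t u h1 h2 h3
    rw [val_eq s t h1 x ⟨hs, ht⟩, val_eq t u h3 x ⟨ht, hu⟩, val_eq s u h2 x ⟨hs, hu⟩]
    ring
  have third : ∀ a b : Fin n, ∃ c : Fin n, a ≠ c ∧ b ≠ c := by
    intro a b
    by_cases ha : a ≠ i0 ∧ b ≠ i0
    · exact ⟨i0, ha.1, ha.2⟩
    · by_cases hb : a ≠ i1 ∧ b ≠ i1
      · exact ⟨i1, hb.1, hb.2⟩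
      · refine ⟨i2, ?_, ?_⟩
        · rintro rfl
          apply ha
          refine ⟨h02.symm, ?_⟩
          rintro rfl
          exact hb ⟨h12.symm, h01⟩
        · rintro rfl
          apply ha
          refine ⟨?_, h02.symm⟩
          rintro rfl
          exact hb ⟨h01, h12.symm⟩
  have anti : ∀ s t : Fin n × Bool, s.1 ≠ t.1 → val s t = - val t s := by
    intro s t h1
    obtain ⟨c, hc1, hc2⟩ := third s.1 t.1
    obtain ⟨x, ⟨hs, ht⟩, hu⟩ := T s t (c, true) h1 hc1 hc2
    rw [val_eq s t h1 x ⟨hs, ht⟩, val_eq t s h1.symm x ⟨ht, hs⟩]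
    ring
  let k : Fin n × Bool → ℝ := fun s =>
    if s = o then 0 else if s.1 ≠ i0 then val s o else val s u1 + val u1 o
  have k0 : k o = 0 := by simp [k]
  have k1 : ∀ s : Fin n × Bool, s.1 ≠ i0 → k s = val s o := by
    intro s hs
    have : s ≠ o := fun h => hs (by rw [h])
    simp [k, this, hs]
  have k2 : k (i0, false) = val (i0, false) u1 + val u1 o := by
    have : ((i0, false) : Fin n × Bool) ≠ o := by simp [o]
    simp [k, this]
  have part : ∀ s t : Fin n × Bool, s.1 = i0 → t.1 ≠ i0 → val s t = k s - k t := by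
    intro s t hs ht
    rcases s with ⟨a, e⟩
    simp only at hs
    subst hs
    rw [k1 t ht]
    cases e with
    | true =>
      have := anti o t (Ne.symm ht)
      rw [show ((i0, true) : Fin n × Bool) = o from rfl, k0, this]
      ring
    | false =>
      rw [k2]
      by_cases ht1 : t.1 = i1
      · rcases t with ⟨c, e⟩
        simp only at ht1
        subst ht1
        cases e with
        | true =>
          change val (i0, false) u1 = val (i0, false) u1 + val u1 o - val u1 o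
          ring
        | false =>
          have e1 := coc (i0, false) u2 (i1, false) h02 h01 h12.symm
          have e2 := coc (i0, false) u1 u2 h01 h02 h12
          have e3 := coc u1 u2 o h12 h01.symm h02.symm
          have e4 := coc u2 (i1, false) o h12.symm h02.symm h01.symm
          linarith
      · have e1 := coc (i0, false) u1 t h01 (Ne.symm ht) (Ne.symm ht1)
        have e2 := coc u1 t o (Ne.symm ht1) h01.symm ht
        linarith
  have all : ∀ s t : Fin n × Bool, s.1 ≠ t.1 → val s t = k s - k t := by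
    intro s t hst
    by_cases hs : s.1 = i0
    · exact part s t hs (fun h => hst (hs.trans h.symm))
    · by_cases ht : t.1 = i0
      · have := part t s ht hs
        rw [anti s t hst, this]; ring
      · rw [k1 s hs, k1 t ht]
        have := coc s t o hst hs ht
        linarith
  refine ⟨k, fun s t hst x hx => ?_⟩
  have h1 := val_eq s t hst x hx
  have h2 := all s t hst
  linarith

end glue

section euclid

variable {n : ℕ}

/-- sign of a boolean -/
def sg (e : Bool) : ℝ := if e then 1 else -1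

theorem sg_mul (e : Bool) : sg e * sg e = 1 := by cases e <;> simp [sg]

theorem sg_abs (e : Bool) : |sg e| = 1 := by cases e <;> simp [sg]

/-- half spaces intersected with a ball -/
def CC (n : ℕ) (r R : ℝ) (s : Fin n × Bool) : Set (EuclideanSpace ℝ (Fin n)) :=
  {x | r < sg s.2 * x s.1} ∩ ball 0 R

theorem CC_convex (r R : ℝ) (s : Fin n × Bool) : Convex ℝ (CC n r R s) := by
  refine Convex.inter ?_ (convex_ball _ _)
  intro x hx y hy a b ha hb hab
  simp only [mem_ofPred_eq, PiLp.add_apply, PiLp.smul_apply, smul_eq_mul] at *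
  have h1 : sg s.2 * (a * x s.1 + b * y s.1) = a * (sg s.2 * x s.1) + b * (sg s.2 * y s.1) := by
    ring
  rw [h1]
  rcases ha.eq_or_lt with rfl | ha'
  · have : b = 1 := by linarith
    subst this; linarith
  · have h2 : a * r < a * (sg s.2 * x s.1) := mul_lt_mul_of_pos_left hx ha'
    have h3 : b * r ≤ b * (sg s.2 * y s.1) := mul_le_mul_of_nonneg_left hy.le hb
    have h4 : a * r + b * r = r := by rw [← add_mul, hab, one_mul]
    linarith

theorem CC_sub (r R : ℝ) (s : Fin n × Bool) : CC n r R s ⊆ ball 0 R := inter_subset_right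

theorem coord_le (x : EuclideanSpace ℝ (Fin n)) (j : Fin n) : |x j| ≤ ‖x‖ := by
  have := PiLp.norm_apply_le x j
  simpa using this

theorem norm_le_of_coord (x : EuclideanSpace ℝ (Fin n)) (m : ℝ) (hm : 0 ≤ m)
    (h : ∀ j, |x j| ≤ m) : ‖x‖ ≤ n * m := by
  rcases Nat.eq_zero_or_pos n with h0 | h0
  · subst h0
    have : x = 0 := Subsingleton.elim _ _
    simp [this]
  apply abs_le_of_sq_le_sq' _ (by positivity) |>.2
  rw [EuclideanSpace.norm_sq_eq]
  have h1 : ∀ j ∈ Finset.univ, ‖x j‖ ^ 2 ≤ m ^ 2 := by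
    intro j _
    have := h j
    rw [Real.norm_eq_abs]
    gcongr
  calc ∑ j, ‖x j‖ ^ 2 ≤ ∑ _j : Fin n, m ^ 2 := Finset.sum_le_sum h1
    _ = n * m ^ 2 := by simp
    _ ≤ (n * m) ^ 2 := by
      rw [mul_pow]
      have h2 : (1 : ℝ) ≤ n := by exact_mod_cast h0
      have h3 : (n : ℝ) ≤ (n : ℝ) ^ 2 := by nlinarith
      have h4 : 0 ≤ m ^ 2 := by positivity
      nlinarith

theorem CC_triple (r R : ℝ) (hr : 0 ≤ r) (hR : 3 * (r + 1) ≤ R) (s t u : Fin n × Bool)
    (h1 : s.1 ≠ t.1) (h2 : s.1 ≠ u.1) (h3 : t.1 ≠ u.1) :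
    (CC n r R s ∩ CC n r R t ∩ CC n r R u).Nonempty := by
  classical
  let x : EuclideanSpace ℝ (Fin n) := EuclideanSpace.single s.1 (sg s.2 * (r + 1 / 2))
    + EuclideanSpace.single t.1 (sg t.2 * (r + 1 / 2))
    + EuclideanSpace.single u.1 (sg u.2 * (r + 1 / 2))
  have hn : ∀ e : Bool, ‖sg e * (r + 1 / 2)‖ = r + 1 / 2 := by
    intro e
    rw [norm_mul, Real.norm_eq_abs, sg_abs, one_mul, Real.norm_of_nonneg (by linarith)]
  have hx : x ∈ ball (0 : EuclideanSpace ℝ (Fin n)) R := by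
    rw [mem_ball_zero_iff]
    calc ‖x‖ ≤ ‖EuclideanSpace.single s.1 (sg s.2 * (r + 1 / 2))‖
        + ‖EuclideanSpace.single t.1 (sg t.2 * (r + 1 / 2))‖
        + ‖EuclideanSpace.single u.1 (sg u.2 * (r + 1 / 2))‖ := norm_add₃_le
      _ = 3 * (r + 1 / 2) := by
        rw [EuclideanSpace.norm_single, EuclideanSpace.norm_single, EuclideanSpace.norm_single,
          hn, hn, hn]; ring
      _ < R := by linarith
  have key : ∀ e : Bool, r < sg e * (sg e * (r + 1 / 2)) := by
    intro e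
    rw [← mul_assoc, sg_mul]; linarith
  refine ⟨x, ⟨⟨?_, hx⟩, ⟨?_, hx⟩⟩, ⟨?_, hx⟩⟩
  · have : x s.1 = sg s.2 * (r + 1 / 2) := by
      simp [x, h1, h2]
    rw [mem_ofPred_eq, this]; exact key _
  · have : x t.1 = sg t.2 * (r + 1 / 2) := by
      simp [x, h1.symm, h3]
    rw [mem_ofPred_eq, this]; exact key _
  · have : x u.1 = sg u.2 * (r + 1 / 2) := by
      simp [x, h2.symm, h3.symm]
    rw [mem_ofPred_eq, this]; exact key _

/-- 1-cocycles on a shell are exact (uniform version), dimension at least three. -/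
theorem shell1 (hn : 3 ≤ n) (b : EuclideanSpace ℝ (Fin n) → EuclideanSpace ℝ (Fin n) → ℝ)
    (r R δ : ℝ) (hr : 0 ≤ r) (hR : 3 * (r + 1) ≤ R) (hδ : 0 < δ) (hδ1 : δ ≤ 1)
    (h : ∀ x ∈ ball (0 : EuclideanSpace ℝ (Fin n)) R, r < ‖x‖ →
      Z1 b (ball x δ ∩ ball 0 R)) :
    ∃ f : EuclideanSpace ℝ (Fin n) → ℝ, ∀ x ∈ ball (0 : EuclideanSpace ℝ (Fin n)) R,
      ∀ y ∈ ball (0 : EuclideanSpace ℝ (Fin n)) R, n * (r + 1) < ‖x‖ → dist x y < δ / 3 →
        b x y = f y - f x := by
  classical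
  have hcc : ∀ s : Fin n × Bool, ∀ x ∈ CC n r R s, r < ‖x‖ := by
    intro s x hx
    have h1 : r < sg s.2 * x s.1 := hx.1
    have h2 : sg s.2 * x s.1 ≤ |x s.1| := by
      calc sg s.2 * x s.1 ≤ |sg s.2 * x s.1| := le_abs_self _
        _ = |x s.1| := by rw [abs_mul, sg_abs, one_mul]
    linarith [coord_le x s.1]
  have hex : ∀ s : Fin n × Bool, ∃ f : EuclideanSpace ℝ (Fin n) → ℝ,
      ∀ x ∈ CC n r R s, ∀ y ∈ CC n r R s, dist x y < δ / 3 → b x y = f y - f x := by
    intro s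
    refine poin1 (CC_convex r R s) (isBounded_ball.subset (CC_sub r R s)) b δ hδ ?_
    intro x hx
    exact (h x hx.2 (hcc s x hx)).mono (inter_subset_inter_right _ (CC_sub r R s))
  choose f hf using hex
  obtain ⟨k, hk⟩ := glue hn (CC n r R) f (by
    intro s t hst x hx y hy
    refine const_of_step ((CC_convex r R s).inter (CC_convex r R t))
      (fun x => f s x - f t x) (δ / 3) (by positivity) ?_ x hx y hy
    intro x hx y hy hxy
    have e1 := hf s x hx.1 y hy.1 hxy
    have e2 := hf t x hx.2 y hy.2 hxy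
    linarith) (CC_triple r R hr hR)
  have hopp : ∀ s t : Fin n × Bool, s.1 = t.1 → ∀ x ∈ CC n r R s ∩ CC n r R t, s = t := by
    intro s t hst x hx
    rcases s with ⟨a, e⟩
    rcases t with ⟨c, e'⟩
    simp only at hst
    subst hst
    have h1 : r < sg e * x a := hx.1.1
    have h2 : r < sg e' * x a := hx.2.1
    cases e <;> cases e' <;> simp [sg] at h1 h2 ⊢ <;> linarith
  have hk' : ∀ s t : Fin n × Bool, ∀ x ∈ CC n r R s ∩ CC n r R t,
      f s x - k s = f t x - k t := by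
    intro s t x hx
    by_cases hst : s.1 = t.1
    · rw [hopp s t hst x hx]
    · exact hk s t hst x hx
  let F : EuclideanSpace ℝ (Fin n) → ℝ := fun x =>
    if hx : ∃ s, x ∈ CC n r R s then f hx.choose x - k hx.choose else 0
  have hF : ∀ s, ∀ x ∈ CC n r R s, F x = f s x - k s := by
    intro s x hx
    have hx' : ∃ s, x ∈ CC n r R s := ⟨s, hx⟩
    simp only [F, dif_pos hx']
    exact hk' _ _ x ⟨hx'.choose_spec, hx⟩
  refine ⟨F, ?_⟩
  intro x hx y hy hxn hxy
  have hj : ∃ j, r + 1 < |x j| := by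
    by_contra hcon
    push Not at hcon
    have := norm_le_of_coord x (r + 1) (by linarith) hcon
    linarith
  obtain ⟨j, hj⟩ := hj
  obtain ⟨e, he⟩ : ∃ e : Bool, sg e * x j = |x j| := by
    rcases le_total 0 (x j) with h0 | h0
    · exact ⟨true, by simp [sg, abs_of_nonneg h0]⟩
    · exact ⟨false, by simp [sg, abs_of_nonpos h0]⟩
  have hxC : x ∈ CC n r R (j, e) := ⟨by simp only [mem_ofPred_eq]; rw [he]; linarith, hx⟩
  have hyC : y ∈ CC n r R (j, e) := by
    refine ⟨?_, hy⟩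
    simp only [mem_ofPred_eq]
    have h1 : |x j - y j| ≤ dist x y := by
      rw [dist_eq_norm]
      have := coord_le (x - y) j
      simpa using this
    have h2 : |sg e * x j - sg e * y j| = |x j - y j| := by
      rw [← mul_sub, abs_mul, sg_abs, one_mul]
    have h3 := le_abs_self (sg e * x j - sg e * y j)
    rw [h2, he] at h3
    linarith
  rw [hF _ x hxC, hF _ y hyC, hf _ x hxC y hyC hxy]
  ring

/-- Compactly supported 2-cocycles on euclidean space of dimension at least three are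
differentials of compactly supported 1-cochains. -/
theorem HC2 (hn : 3 ≤ n)
    (a : EuclideanSpace ℝ (Fin n) → EuclideanSpace ℝ (Fin n) → EuclideanSpace ℝ (Fin n) → ℝ)
    (ha : ∀ x, ∃ W ∈ 𝓝 x, Z2 a W)
    (K : Set (EuclideanSpace ℝ (Fin n))) (hK : IsCompact K)
    (hs : ∀ x, x ∉ K → ∃ W ∈ 𝓝 x, ∀ y ∈ W, ∀ z ∈ W, ∀ w ∈ W, a y z w = 0) :
    ∃ ω : EuclideanSpace ℝ (Fin n) → EuclideanSpace ℝ (Fin n) → ℝ,
      (∀ x, ∃ W ∈ 𝓝 x, E2 ω a W) ∧
      ∃ ρ : ℝ, ∀ x, ρ ≤ ‖x‖ → ∃ W ∈ 𝓝 x, ∀ y ∈ W, ∀ z ∈ W, ω y z = 0 := by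
  classical
  obtain ⟨r0, hr0⟩ := hK.isBounded.subset_ball 0
  let r : ℝ := max r0 0
  have hr : 0 ≤ r := le_max_right _ _
  have hKr : ∀ x, r ≤ ‖x‖ → x ∉ K := by
    intro x hx hxK
    have := hr0 hxK
    rw [mem_ball_zero_iff] at this
    have : r0 ≤ r := le_max_left _ _
    linarith
  have hn' : (3 : ℝ) ≤ n := by exact_mod_cast hn
  let r1 : ℝ := n * (r + 1)
  have hr1 : 3 * (r + 1) ≤ r1 := by simp only [r1]; nlinarith
  let R : ℝ := r1 + 3
  obtain ⟨δ, hδ, Hδ⟩ := unif (isCompact_closedBall (0 : EuclideanSpace ℝ (Fin n)) R) (Z2 a)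
    (fun W W' h hs => h.mono hs) (fun x _ => ha x)
  obtain ⟨b, hb⟩ := poin2 (convex_ball (0 : EuclideanSpace ℝ (Fin n)) R) isBounded_ball a δ hδ
    (fun x hx => (Hδ x (ball_subset_closedBall hx)).mono inter_subset_left)
  obtain ⟨δ1, hδ1, H1⟩ := unif (K := closedBall (0 : EuclideanSpace ℝ (Fin n)) R ∩ {x | r ≤ ‖x‖})
    ((isCompact_closedBall _ _).inter_right (isClosed_le continuous_const continuous_norm))
    (fun W => ∀ y ∈ W, ∀ z ∈ W, ∀ w ∈ W, a y z w = 0)
    (fun W W' h hs y hy z hz w hw => h y (hs hy) z (hs hz) w (hs hw))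
    (fun x hx => hs x (hKr x hx.2))
  let δ2 : ℝ := min (min (δ / 6) δ1) (1 / 2)
  have hδ2 : 0 < δ2 := by positivity
  have hδ2a : δ2 ≤ δ / 6 := (min_le_left _ _).trans (min_le_left _ _)
  have hδ2b : δ2 ≤ δ1 := (min_le_left _ _).trans (min_le_right _ _)
  have hδ2c : δ2 ≤ 1 / 2 := min_le_right _ _
  have hdb : ∀ x, ∀ y ∈ ball x δ2 ∩ ball (0 : EuclideanSpace ℝ (Fin n)) R,
      ∀ z ∈ ball x δ2 ∩ ball (0 : EuclideanSpace ℝ (Fin n)) R,
      ∀ w ∈ ball x δ2 ∩ ball (0 : EuclideanSpace ℝ (Fin n)) R,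
      b z w - b y w + b y z = a y z w := by
    intro x y hy z hz w hw
    have h1 : dist y z < δ / 3 := by
      have := dist_triangle_right y z x
      have h2 := mem_ball.1 hy.1
      have h3 := mem_ball.1 hz.1
      linarith
    have h1' : dist y w < δ / 3 := by
      have := dist_triangle_right y w x
      have h2 := mem_ball.1 hy.1
      have h3 := mem_ball.1 hw.1
      linarith
    exact hb y hy.2 z hz.2 w hw.2 h1 h1'
  obtain ⟨f, hf⟩ := shell1 hn b r R δ2 hr (by simp only [R]; linarith) hδ2 (by linarith) (by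
    intro x hx hxr y hy z hz w hw
    rw [hdb x y hy z hz w hw]
    exact H1 x ⟨ball_subset_closedBall hx, hxr.le⟩ y (ball_subset_ball hδ2b hy.1) z
      (ball_subset_ball hδ2b hz.1) w (ball_subset_ball hδ2b hw.1))
  let ω : EuclideanSpace ℝ (Fin n) → EuclideanSpace ℝ (Fin n) → ℝ := fun x y =>
    if ‖x‖ < R - 1 then b x y - (f y - f x) else 0
  have hout : ∀ y z : EuclideanSpace ℝ (Fin n), r1 < ‖y‖ → dist y z < δ2 / 3 → ω y z = 0 := by
    intro y z hy hyz
    by_cases hyR : ‖y‖ < R - 1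
    · have hzR : z ∈ ball (0 : EuclideanSpace ℝ (Fin n)) R := by
        rw [mem_ball_zero_iff]
        have : ‖z‖ ≤ ‖y‖ + dist y z := by
          rw [dist_comm, dist_eq_norm]
          have := norm_le_norm_add_norm_sub' z y
          linarith
        linarith
      have := hf y (by rw [mem_ball_zero_iff]; linarith) z hzR hy hyz
      simp only [ω, if_pos hyR]
      linarith
    · simp only [ω, if_neg hyR]
  refine ⟨ω, ?_, r1 + 1, ?_⟩
  · intro x
    by_cases hx : ‖x‖ < R - 1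
    · refine ⟨ball x δ2 ∩ ball 0 (R - 1), Filter.inter_mem (ball_mem_nhds _ hδ2)
        (isOpen_ball.mem_nhds (by rwa [mem_ball_zero_iff])), ?_⟩
      intro y hy z hz w hw
      have hy' := hy.2
      have hz' := hz.2
      have hw' := hw.2
      rw [mem_ball_zero_iff] at hy' hz' hw'
      have hsub : ball (0 : EuclideanSpace ℝ (Fin n)) (R - 1) ⊆ ball 0 R :=
        ball_subset_ball (by linarith)
      have := hdb x y ⟨hy.1, hsub hy.2⟩ z ⟨hz.1, hsub hz.2⟩ w ⟨hw.1, hsub hw.2⟩
      simp only [ω, if_pos hy', if_pos hz']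
      linarith
    · push Not at hx
      obtain ⟨W0, hW0, hW0'⟩ := hs x (hKr x (by simp only [R] at hx; nlinarith))
      refine ⟨W0 ∩ ball x (δ2 / 6), Filter.inter_mem hW0 (ball_mem_nhds _ (by positivity)), ?_⟩
      intro y hy z hz w hw
      have hn1 : ∀ p ∈ ball x (δ2 / 6), r1 < ‖p‖ := by
        intro p hp
        have h1 := mem_ball.1 hp
        rw [dist_comm, dist_eq_norm] at h1
        have h2 := norm_le_norm_add_norm_sub' x p
        simp only [R] at hx
        linarith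
      have hd1 : ∀ p ∈ ball x (δ2 / 6), ∀ q ∈ ball x (δ2 / 6), dist p q < δ2 / 3 := by
        intro p hp q hq
        have := dist_triangle_right p q x
        have h2 := mem_ball.1 hp
        have h3 := mem_ball.1 hq
        linarith
      rw [hW0' y hy.1 z hz.1 w hw.1, hout z w (hn1 z hz.2) (hd1 z hz.2 w hw.2),
        hout y w (hn1 y hy.2) (hd1 y hy.2 w hw.2), hout y z (hn1 y hy.2) (hd1 y hy.2 z hz.2)]
      ring
  · intro x hx
    refine ⟨ball x (δ2 / 6), ball_mem_nhds _ (by positivity), ?_⟩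
    intro y hy z hz
    have h1 := mem_ball.1 hy
    have h3 := mem_ball.1 hz
    have h4 := dist_triangle_right y z x
    refine hout y z ?_ (by linarith)
    rw [dist_comm, dist_eq_norm] at h1
    have h2 := norm_le_norm_add_norm_sub' x y
    linarith

end euclid

end Run7.h255.OQHC
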