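import Pool.Agent.Run7.h255.OQ.SPH

/-!
# Project OQ (MP_74810d_gt): a 2-cocycle of the sphere which is not a coboundary

Alexander-Spanier cochains: functions on triples of near points.
-/

set_option autoImplicit false

noncomputable section

open Metric Finset

namespace Run7.h255.OQ

/-- third coordinate -/
def c2 (x : S2) : ℝ := x.1 2

/-- first two coordinates as a complex number -/
def zt (x : S2) : ℂ := ⟨x.1 0, x.1 1⟩

/-- `ζ(y) conj ζ(x)` -/
def Z (x y : S2) : ℂ := starRingEnd ℂ (zt x) * zt y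

def PN (x y : S2) : ℂ := ((1 + c2 x) * (1 + c2 y) : ℝ) + Z x y
def PS (x y : S2) : ℂ := ((1 - c2 x) * (1 - c2 y) : ℝ) + starRingEnd ℂ (Z x y)

def aN (x y : S2) : ℝ := (PN x y).arg
def aS (x y : S2) : ℝ := (PS x y).arg
def th (x y : S2) : ℝ := (Z x y).arg

/-- coboundary of a 1-cochain -/
def dd {X : Type*} (b : X → X → ℝ) (x y z : X) : ℝ := b y z - b x z + b x y

/-- the 2-cochain -/
def al (x y z : S2) : ℝ := if 0 ≤ c2 x then dd aN x y z else dd aS x y z

theorem nsq (x : S2) : (x.1 0) ^ 2 + (x.1 1) ^ 2 + (x.1 2) ^ 2 = 1 := by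
  have h := x.2
  rw [mem_sphere_zero_iff_norm, EuclideanSpace.norm_eq, Real.sqrt_eq_one, Fin.sum_univ_three] at h
  simpa using h

theorem zt_sq (x : S2) : Complex.normSq (zt x) = 1 - c2 x ^ 2 := by
  have h := nsq x
  rw [Complex.normSq_apply]
  simp only [zt, c2]
  linarith

theorem dist_sq (x y : S2) : dist x y ^ 2 = (x.1 0 - y.1 0) ^ 2 + (x.1 1 - y.1 1) ^ 2 +
    (x.1 2 - y.1 2) ^ 2 := by
  rw [Subtype.dist_eq, EuclideanSpace.dist_eq, Real.sq_sqrt (by positivity), Fin.sum_univ_three]
  simp [Real.dist_eq]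

theorem c2_near {x y : S2} : |c2 x - c2 y| ≤ dist x y := by
  refine abs_le_of_sq_le_sq ?_ dist_nonneg
  rw [dist_sq]
  unfold c2
  nlinarith [sq_nonneg (x.1 0 - y.1 0), sq_nonneg (x.1 1 - y.1 1)]

theorem Z_re (x y : S2) : (Z x y).re = x.1 0 * y.1 0 + x.1 1 * y.1 1 := by
  simp [Z, zt, Complex.mul_re]

theorem Z_re_ge (x y : S2) : (1 - c2 x ^ 2 + (1 - c2 y ^ 2) - dist x y ^ 2) / 2 ≤ (Z x y).re := by
  rw [Z_re, dist_sq]
  have h1 := nsq x
  have h2 := nsq y
  unfold c2
  nlinarith [sq_nonneg (x.1 2 - y.1 2)]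

/-- the constant of nearness -/
def del : ℝ := 1 / 4

theorem PN_re {x y : S2} (hx : -(1 / 2) < c2 x) (hy : -(1 / 2) < c2 y) (h : dist x y < del) :
    0 < (PN x y).re := by
  have h1 := Z_re_ge x y
  have h2 : c2 x ^ 2 ≤ 1 := by have := nsq x; unfold c2; nlinarith [sq_nonneg (x.1 0), sq_nonneg (x.1 1)]
  have h3 : c2 y ^ 2 ≤ 1 := by have := nsq y; unfold c2; nlinarith [sq_nonneg (y.1 0), sq_nonneg (y.1 1)]
  have h4 : dist x y ^ 2 < 1 / 16 := by
    unfold del at h
    nlinarith [dist_nonneg (x := x) (y := y)]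
  have h5 : 1 / 4 < (1 + c2 x) * (1 + c2 y) := by nlinarith
  unfold PN
  rw [Complex.add_re, Complex.ofReal_re]
  linarith

theorem PS_re {x y : S2} (hx : c2 x < 1 / 2) (hy : c2 y < 1 / 2) (h : dist x y < del) :
    0 < (PS x y).re := by
  have h1 := Z_re_ge x y
  have h2 : c2 x ^ 2 ≤ 1 := by have := nsq x; unfold c2; nlinarith [sq_nonneg (x.1 0), sq_nonneg (x.1 1)]
  have h3 : c2 y ^ 2 ≤ 1 := by have := nsq y; unfold c2; nlinarith [sq_nonneg (y.1 0), sq_nonneg (y.1 1)]
  have h4 : dist x y ^ 2 < 1 / 16 := by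
    unfold del at h
    nlinarith [dist_nonneg (x := x) (y := y)]
  have h5 : 1 / 4 < (1 - c2 x) * (1 - c2 y) := by nlinarith
  unfold PS
  rw [Complex.add_re, Complex.ofReal_re, Complex.conj_re]
  linarith

theorem Z_re_pos {x y : S2} (hx : |c2 x| < 1 / 2) (hy : |c2 y| < 1 / 2) (h : dist x y < del) :
    0 < (Z x y).re := by
  have h1 := Z_re_ge x y
  have h2 : c2 x ^ 2 < 1 / 4 := by
    have := sq_lt_sq' (abs_lt.1 hx).1 (abs_lt.1 hx).2
    linarith
  have h3 : c2 y ^ 2 < 1 / 4 := by
    have := sq_lt_sq' (abs_lt.1 hy).1 (abs_lt.1 hy).2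
    linarith
  have h4 : dist x y ^ 2 < 1 / 16 := by
    unfold del at h
    nlinarith [dist_nonneg (x := x) (y := y)]
  linarith

theorem arg_mul_pos {z w : ℂ} (hz : 0 < z.re) (hw : 0 < w.re) :
    (z * w).arg = z.arg + w.arg := by
  have hz0 : z ≠ 0 := by rintro rfl; simp at hz
  have hw0 : w ≠ 0 := by rintro rfl; simp at hw
  have h1 := Complex.abs_arg_lt_pi_div_two_iff.2 (Or.inl hz)
  have h2 := Complex.abs_arg_lt_pi_div_two_iff.2 (Or.inl hw)
  rw [abs_lt] at h1 h2
  exact (Complex.arg_mul_eq_add_arg_iff hz0 hw0).2 ⟨by linarith, by linarith⟩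

theorem arg_conj_pos {z : ℂ} (hz : 0 < z.re) : (starRingEnd ℂ z).arg = -z.arg := by
  rw [Complex.arg_conj, if_neg]
  intro h
  have h1 := Complex.abs_arg_lt_pi_div_two_iff.2 (Or.inl hz)
  rw [h, abs_of_pos Real.pi_pos] at h1
  linarith [Real.pi_pos]

/-- transition between the two hemispheres -/
theorem aS_eq {x y : S2} (hx : |c2 x| < 1 / 2) (hy : |c2 y| < 1 / 2) (h : dist x y < del) :
    aS x y = aN x y - th x y := by
  have hN := PN_re (by linarith [(abs_lt.1 hx).1]) (by linarith [(abs_lt.1 hy).1]) h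
  have hZ := Z_re_pos hx hy h
  have hZc : 0 < (starRingEnd ℂ (Z x y)).re := by rw [Complex.conj_re]; exact hZ
  have hr : 0 < (1 + c2 x) * (1 + c2 y) :=
    mul_pos (by linarith [(abs_lt.1 hx).1]) (by linarith [(abs_lt.1 hy).1])
  have hZn : Z x y * starRingEnd ℂ (Z x y) = (((1 - c2 x ^ 2) * (1 - c2 y ^ 2) : ℝ) : ℂ) := by
    rw [Complex.mul_conj]
    congr 1
    unfold Z
    rw [Complex.normSq_mul, Complex.normSq_conj, zt_sq, zt_sq]
  have key : (((1 + c2 x) * (1 + c2 y) : ℝ) : ℂ) * PS x y = starRingEnd ℂ (Z x y) * PN x y := by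
    unfold PS PN
    have e : starRingEnd ℂ (Z x y) * ((((1 + c2 x) * (1 + c2 y) : ℝ) : ℂ) + Z x y) =
        starRingEnd ℂ (Z x y) * (((1 + c2 x) * (1 + c2 y) : ℝ) : ℂ) +
          Z x y * starRingEnd ℂ (Z x y) := by ring
    rw [e, hZn]
    push_cast
    ring
  have h1 : (starRingEnd ℂ (Z x y) * PN x y).arg = -th x y + aN x y := by
    rw [arg_mul_pos hZc hN, arg_conj_pos hZ]
    rfl
  rw [← key, Complex.arg_real_mul _ hr] at h1
  unfold aS
  rw [h1]
  ring

theorem th_add {x y z : S2} (hx : |c2 x| < 1 / 2) (hy : |c2 y| < 1 / 2) (hz : |c2 z| < 1 / 2)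
    (hxy : dist x y < del) (hyz : dist y z < del) : th x z = th x y + th y z := by
  have h1 := Z_re_pos hx hy hxy
  have h2 := Z_re_pos hy hz hyz
  have hn : 0 < Complex.normSq (zt y) := by
    rw [zt_sq]
    have := sq_lt_sq' (abs_lt.1 hy).1 (abs_lt.1 hy).2
    linarith
  have e : Z x y * Z y z = ((Complex.normSq (zt y) : ℝ) : ℂ) * Z x z := by
    unfold Z
    rw [← Complex.mul_conj]
    ring
  have h3 := arg_mul_pos h1 h2
  rw [e, Complex.arg_real_mul _ hn] at h3
  exact h3

theorem dd_eq {x y z : S2} (hx : |c2 x| < 1 / 2) (hy : |c2 y| < 1 / 2) (hz : |c2 z| < 1 / 2)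
    (hxy : dist x y < del) (hyz : dist y z < del) (hxz : dist x z < del) :
    dd aS x y z = dd aN x y z := by
  unfold dd
  rw [aS_eq hy hz hyz, aS_eq hx hz hxz, aS_eq hx hy hxy, th_add hx hy hz hxy hyz]
  ring

/-- near triples with first point in the northern part -/
theorem al_N {x y z : S2} (hx : -(1 / 4) ≤ c2 x) (hxy : dist x y < del) (hyz : dist y z < del)
    (hxz : dist x z < del) : al x y z = dd aN x y z := by
  unfold al
  split_ifs with h
  · rfl
  · push Not at h
    have h1 := (abs_le.1 (c2_near (x := x) (y := y)))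
    have h2 := (abs_le.1 (c2_near (x := x) (y := z)))
    unfold del at hxy hyz hxz
    refine dd_eq ?_ ?_ ?_ hxy hyz hxz
    · rw [abs_lt]; constructor <;> linarith
    · rw [abs_lt]; constructor <;> linarith
    · rw [abs_lt]; constructor <;> linarith

theorem al_S {x y z : S2} (hx : c2 x ≤ 1 / 4) (hxy : dist x y < del) (hyz : dist y z < del)
    (hxz : dist x z < del) : al x y z = dd aS x y z := by
  unfold al
  split_ifs with h
  · have h1 := (abs_le.1 (c2_near (x := x) (y := y)))
    have h2 := (abs_le.1 (c2_near (x := x) (y := z)))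
    unfold del at hxy hyz hxz
    refine (dd_eq ?_ ?_ ?_ hxy hyz hxz).symm
    · rw [abs_lt]; constructor <;> linarith
    · rw [abs_lt]; constructor <;> linarith
    · rw [abs_lt]; constructor <;> linarith
  · rfl

/-- `al` is a cocycle near the diagonal -/
theorem al_cocycle {x y z w : S2} (hxy : dist x y < del) (hxz : dist x z < del)
    (hxw : dist x w < del) (hyz : dist y z < del) (hyw : dist y w < del) (hzw : dist z w < del) :
    al y z w - al x z w + al x y w - al x y z = 0 := by
  have h1 := (abs_le.1 (c2_near (x := x) (y := y)))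
  by_cases h : 0 ≤ c2 x
  · have hy : -(1 / 4) ≤ c2 y := by
      unfold del at hxy
      linarith
    rw [al_N hy hyz hzw hyw, al_N (by linarith) hxz hzw hxw, al_N (by linarith) hxy hyw hxw,
      al_N (by linarith) hxy hyz hxz]
    unfold dd
    ring
  · push Not at h
    have hy : c2 y ≤ 1 / 4 := by
      unfold del at hxy
      linarith
    rw [al_S hy hyz hzw hyw, al_S (by linarith) hxz hzw hxw, al_S (by linarith) hxy hyw hxw,
      al_S (by linarith) hxy hyz hxz]
    unfold dd
    ring

/-! ### the grid -/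

/-- strips: the sum over a closed row does not change from row to row -/
theorem strip {X : Type*} (g : X → X → ℝ) (n : ℕ) (u v : ℕ → X) (hu : u n = u 0) (hv : v n = v 0)
    (h1 : ∀ j < n, dd g (u j) (v j) (v (j + 1)) = 0)
    (h2 : ∀ j < n, dd g (u j) (u (j + 1)) (v (j + 1)) = 0) :
    ∑ j ∈ range n, g (u j) (u (j + 1)) = ∑ j ∈ range n, g (v j) (v (j + 1)) := by
  have h3 : ∀ j ∈ range n, g (u j) (u (j + 1)) - g (v j) (v (j + 1)) =
      g (u j) (v j) - g (u (j + 1)) (v (j + 1)) := by
    intro j hj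
    have e1 := h1 j (mem_range.1 hj)
    have e2 := h2 j (mem_range.1 hj)
    unfold dd at e1 e2
    linarith
  have h4 := Finset.sum_congr rfl h3
  rw [Finset.sum_sub_distrib, Finset.sum_range_sub' (fun j => g (u j) (v j))] at h4
  simp only [hu, hv, sub_self] at h4
  linarith

/-- the point with spherical coordinates `(s, t)`, with a sign for the hemisphere -/
def pt (σ : ℝ) (hσ : σ ^ 2 = 1) (s t : ℝ) : S2 :=
  ⟨!₂[Real.sin s * Real.cos t, Real.sin s * Real.sin t, σ * Real.cos s], by
    rw [mem_sphere_zero_iff_norm, EuclideanSpace.norm_eq, Real.sqrt_eq_one, Fin.sum_univ_three]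
    simp only [Matrix.cons_val_zero, Matrix.cons_val_one, Matrix.cons_val, Real.norm_eq_abs, sq_abs]
    have h1 := Real.sin_sq_add_cos_sq s
    have h2 := Real.sin_sq_add_cos_sq t
    rw [mul_pow, mul_pow, mul_pow, hσ]
    nlinarith⟩

theorem pt_0 (σ : ℝ) (hσ : σ ^ 2 = 1) (s t : ℝ) : (pt σ hσ s t).1 0 = Real.sin s * Real.cos t := rfl
theorem pt_1 (σ : ℝ) (hσ : σ ^ 2 = 1) (s t : ℝ) : (pt σ hσ s t).1 1 = Real.sin s * Real.sin t := rfl
theorem pt_2 (σ : ℝ) (hσ : σ ^ 2 = 1) (s t : ℝ) : (pt σ hσ s t).1 2 = σ * Real.cos s := rfl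

theorem pt_dist (σ : ℝ) (hσ : σ ^ 2 = 1) (s t s' t' : ℝ) :
    dist (pt σ hσ s t) (pt σ hσ s' t') ≤ |s - s'| + |t - t'| := by
  have key : ∀ a b : ℝ, (Real.cos a - Real.cos b) ^ 2 + (Real.sin a - Real.sin b) ^ 2 ≤ |a - b| ^ 2 := by
    intro a b
    have h1 := Real.one_sub_sq_div_two_le_cos (x := a - b)
    rw [Real.cos_sub] at h1
    have h2 := Real.sin_sq_add_cos_sq a
    have h3 := Real.sin_sq_add_cos_sq b
    rw [sq_abs]
    nlinarith
  have h1 : dist (pt σ hσ s t) (pt σ hσ s' t) ≤ |s - s'| := by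
    refine abs_le_of_sq_le_sq' ?_ (abs_nonneg _) |>.2
    rw [dist_sq, pt_0, pt_0, pt_1, pt_1, pt_2, pt_2]
    have h2 := key s s'
    have h3 := Real.sin_sq_add_cos_sq t
    have e : (Real.sin s * Real.cos t - Real.sin s' * Real.cos t) ^ 2 +
        (Real.sin s * Real.sin t - Real.sin s' * Real.sin t) ^ 2 +
        (σ * Real.cos s - σ * Real.cos s') ^ 2 =
        (Real.sin s - Real.sin s') ^ 2 * (Real.sin t ^ 2 + Real.cos t ^ 2) +
        σ ^ 2 * (Real.cos s - Real.cos s') ^ 2 := by ring
    rw [e, h3, hσ]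
    linarith
  have h2 : dist (pt σ hσ s' t) (pt σ hσ s' t') ≤ |t - t'| := by
    refine abs_le_of_sq_le_sq' ?_ (abs_nonneg _) |>.2
    rw [dist_sq, pt_0, pt_0, pt_1, pt_1, pt_2, pt_2]
    have h2 := key t t'
    have h3 := Real.sin_sq_le_one s'
    have e : (Real.sin s' * Real.cos t - Real.sin s' * Real.cos t') ^ 2 +
        (Real.sin s' * Real.sin t - Real.sin s' * Real.sin t') ^ 2 +
        (σ * Real.cos s' - σ * Real.cos s') ^ 2 =
        Real.sin s' ^ 2 * ((Real.cos t - Real.cos t') ^ 2 + (Real.sin t - Real.sin t') ^ 2) := by ring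
    rw [e]
    have h4 : 0 ≤ (Real.cos t - Real.cos t') ^ 2 + (Real.sin t - Real.sin t') ^ 2 := by positivity
    nlinarith
  exact (dist_triangle _ _ _).trans (add_le_add h1 h2)

/-- sum over a parallel of a cochain which is closed on the hemisphere -/
theorem cap_sum (σ : ℝ) (hσ : σ ^ 2 = 1) (g : S2 → S2 → ℝ) (ε : ℝ) (hε : 0 < ε)
    (hg : ∀ x y z : S2, 0 ≤ σ * c2 x → 0 ≤ σ * c2 y → 0 ≤ σ * c2 z →
      dist x y < ε → dist y z < ε → dist x z < ε → dd g x y z = 0)
    (n : ℕ) (hn : 0 < n) (hn2 : 2 * Real.pi / n < ε / 2) :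
    ∑ j ∈ range n, g (pt σ hσ (Real.pi / 2) (2 * Real.pi / n * j))
      (pt σ hσ (Real.pi / 2) (2 * Real.pi / n * (j + 1 : ℕ))) = 0 := by
  have hn' : (0 : ℝ) < n := by exact_mod_cast hn
  set τ : ℝ := 2 * Real.pi / n with hτ
  have hτ0 : 0 < τ := by positivity
  -- rows
  let U : ℕ → ℕ → S2 := fun i j => pt σ hσ (τ / 4 * i) (τ * j)
  have hcl : ∀ i, U i n = U i 0 := by
    intro i
    apply Subtype.ext
    have e : τ * (n : ℝ) = 2 * Real.pi := by rw [hτ]; field_simp
    ext k
    fin_cases k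
    · change Real.sin _ * Real.cos (τ * (n : ℝ)) = Real.sin _ * Real.cos (τ * ((0 : ℕ) : ℝ))
      rw [e, Nat.cast_zero, mul_zero, Real.cos_two_pi, Real.cos_zero]
    · change Real.sin _ * Real.sin (τ * (n : ℝ)) = Real.sin _ * Real.sin (τ * ((0 : ℕ) : ℝ))
      rw [e, Nat.cast_zero, mul_zero, Real.sin_two_pi, Real.sin_zero]
    · rfl
  have hpos : ∀ i, i ≤ n → ∀ j, 0 ≤ σ * c2 (U i j) := by
    intro i hi j
    change 0 ≤ σ * (σ * Real.cos (τ / 4 * i))
    rw [← mul_assoc, ← sq, hσ, one_mul]
    apply Real.cos_nonneg_of_neg_pi_div_two_le_of_le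
    · have : 0 ≤ τ / 4 * i := by positivity
      linarith [Real.pi_pos]
    · have h1 : τ / 4 * i ≤ τ / 4 * n := by
        have : (i : ℝ) ≤ n := by exact_mod_cast hi
        nlinarith
      have h2 : τ / 4 * n = Real.pi / 2 := by rw [hτ]; field_simp; norm_num
      linarith
  have hd : ∀ i j i' j' : ℕ, (i' = i ∨ i' = i + 1) → (j' = j ∨ j' = j + 1 ) →
      dist (U i j) (U i' j') < ε := by
    intro i j i' j' hi hj
    refine lt_of_le_of_lt (pt_dist σ hσ _ _ _ _) ?_
    have h1 : |τ / 4 * (i : ℝ) - τ / 4 * (i' : ℝ)| ≤ τ := by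
      rcases hi with rfl | rfl
      · simp [hτ0.le]
      · push_cast
        rw [abs_le]; constructor <;> nlinarith
    have h2 : |τ * (j : ℝ) - τ * (j' : ℝ)| ≤ τ := by
      rcases hj with rfl | rfl
      · simp [hτ0.le]
      · push_cast
        rw [abs_le]; constructor <;> nlinarith
    linarith
  have hrow : ∀ i, i ≤ n → ∑ j ∈ range n, g (U i j) (U i (j + 1)) =
      ∑ j ∈ range n, g (U 0 j) (U 0 (j + 1)) := by
    intro i
    induction i with
    | zero => intro _; rfl
    | succ i ih =>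
      intro hi
      rw [← ih (by omega)]
      symm
      refine strip g n (U i) (U (i + 1)) (hcl i) (hcl (i + 1)) ?_ ?_
      · intro j _
        exact hg _ _ _ (hpos i (by omega) j) (hpos (i + 1) hi j) (hpos (i + 1) hi (j + 1))
          (hd _ _ _ _ (Or.inr rfl) (Or.inl rfl)) (hd _ _ _ _ (Or.inl rfl) (Or.inr rfl))
          (hd _ _ _ _ (Or.inr rfl) (Or.inr rfl))
      · intro j _
        exact hg _ _ _ (hpos i (by omega) j) (hpos i (by omega) (j + 1)) (hpos (i + 1) hi (j + 1))
          (hd _ _ _ _ (Or.inl rfl) (Or.inr rfl)) (hd _ _ _ _ (Or.inr rfl) (Or.inl rfl))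
          (hd _ _ _ _ (Or.inr rfl) (Or.inr rfl))
  have hpole : ∀ j, U 0 j = U 0 0 := by
    intro j
    apply Subtype.ext
    ext k
    fin_cases k
    · change Real.sin (τ / 4 * ((0 : ℕ) : ℝ)) * _ = Real.sin (τ / 4 * ((0 : ℕ) : ℝ)) * _
      rw [Nat.cast_zero, mul_zero, Real.sin_zero, zero_mul, zero_mul]
    · change Real.sin (τ / 4 * ((0 : ℕ) : ℝ)) * _ = Real.sin (τ / 4 * ((0 : ℕ) : ℝ)) * _
      rw [Nat.cast_zero, mul_zero, Real.sin_zero, zero_mul, zero_mul]
    · rfl
  have hz : g (U 0 0) (U 0 0) = 0 := by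
    have h := hg (U 0 0) (U 0 0) (U 0 0) (hpos 0 (by omega) 0) (hpos 0 (by omega) 0)
      (hpos 0 (by omega) 0) (by simpa using hε) (by simpa using hε) (by simpa using hε)
    unfold dd at h
    linarith
  have h1 := hrow n le_rfl
  have h2 : ∑ j ∈ range n, g (U 0 j) (U 0 (j + 1)) = 0 := by
    refine Finset.sum_eq_zero fun j _ => ?_
    rw [hpole j, hpole (j + 1), hz]
  rw [h2] at h1
  have e : τ / 4 * (n : ℝ) = Real.pi / 2 := by rw [hτ]; field_simp; norm_num
  have h3 : ∀ j, U n j = pt σ hσ (Real.pi / 2) (τ * j) := by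
    intro j
    change pt σ hσ (τ / 4 * (n : ℝ)) (τ * j) = _
    rw [e]
  simpa only [h3] using h1

/-- **The cocycle `al` is not a coboundary near the diagonal.** -/
theorem al_not_exact (β : S2 → S2 → ℝ) (ε : ℝ) (hε : 0 < ε) :
    ∃ x y z : S2, dist x y < ε ∧ dist y z < ε ∧ dist x z < ε ∧ al x y z ≠ dd β x y z := by
  by_contra hcon
  push Not at hcon
  set η : ℝ := min ε (1 / 8) with hη
  have hη0 : 0 < η := lt_min hε (by norm_num)
  have hη1 : η ≤ ε := min_le_left _ _
  have hη2 : η ≤ 1 / 8 := min_le_right _ _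
  have hηd : η < del := by unfold del; linarith
  obtain ⟨n, hn⟩ := exists_nat_gt (4 * Real.pi / η)
  have hn0 : 0 < (n : ℝ) := lt_trans (by positivity) hn
  have hn0' : 0 < n := by exact_mod_cast hn0
  have hn2 : 2 * Real.pi / n < η / 2 := by
    rw [div_lt_iff₀ hη0] at hn
    rw [div_lt_div_iff₀ hn0 two_pos]
    nlinarith
  have hN := cap_sum 1 (by norm_num) (fun x y => β x y - aN x y) η hη0 (by
    intro x y z hx hy hz hxy hyz hxz
    rw [one_mul] at hx
    have h1 := hcon x y z (by linarith) (by linarith) (by linarith)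
    rw [al_N (by linarith) (by linarith) (by linarith) (by linarith)] at h1
    unfold dd at *
    linarith) n hn0' hn2
  have hS := cap_sum (-1) (by norm_num) (fun x y => β x y - aS x y) η hη0 (by
    intro x y z hx hy hz hxy hyz hxz
    have h1 := hcon x y z (by linarith) (by linarith) (by linarith)
    rw [al_S (by linarith) (by linarith) (by linarith) (by linarith)] at h1
    unfold dd at *
    linarith) n hn0' hn2
  set τ : ℝ := 2 * Real.pi / n with hτ
  have hτ0 : 0 < τ := by positivity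
  have hsame : ∀ t : ℝ, pt (-1) (by norm_num) (Real.pi / 2) t = pt 1 (by norm_num) (Real.pi / 2) t := by
    intro t
    apply Subtype.ext
    ext k
    fin_cases k
    · rfl
    · rfl
    · change -1 * Real.cos (Real.pi / 2) = 1 * Real.cos (Real.pi / 2)
      rw [Real.cos_pi_div_two, mul_zero, mul_zero]
  simp only [hsame] at hS
  have hsub := congrArg₂ (fun a b : ℝ => a - b) hS hN
  simp only [← Finset.sum_sub_distrib, sub_self] at hsub
  have hterm : ∀ j ∈ range n, (β (pt 1 (by norm_num) (Real.pi / 2) (τ * j))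
      (pt 1 (by norm_num) (Real.pi / 2) (τ * (j + 1 : ℕ))) -
      aS (pt 1 (by norm_num) (Real.pi / 2) (τ * j)) (pt 1 (by norm_num) (Real.pi / 2) (τ * (j + 1 : ℕ))) -
      (β (pt 1 (by norm_num) (Real.pi / 2) (τ * j))
      (pt 1 (by norm_num) (Real.pi / 2) (τ * (j + 1 : ℕ))) -
      aN (pt 1 (by norm_num) (Real.pi / 2) (τ * j)) (pt 1 (by norm_num) (Real.pi / 2) (τ * (j + 1 : ℕ))))) =
      τ := by
    intro j _
    set x : S2 := pt 1 (by norm_num) (Real.pi / 2) (τ * j) with hx
    set y : S2 := pt 1 (by norm_num) (Real.pi / 2) (τ * (j + 1 : ℕ)) with hy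
    have hx2 : c2 x = 0 := by
      change 1 * Real.cos (Real.pi / 2) = 0
      rw [Real.cos_pi_div_two, mul_zero]
    have hy2 : c2 y = 0 := by
      change 1 * Real.cos (Real.pi / 2) = 0
      rw [Real.cos_pi_div_two, mul_zero]
    have hdist : dist x y < del := by
      refine lt_of_le_of_lt (pt_dist 1 _ _ _ _ _) ?_
      rw [sub_self, abs_zero, zero_add]
      have : |τ * (j : ℝ) - τ * ((j + 1 : ℕ) : ℝ)| = τ := by
        push_cast
        have : τ * (j : ℝ) - τ * ((j : ℝ) + 1) = -τ := by ring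
        rw [this, abs_neg, abs_of_pos hτ0]
      rw [this]
      linarith
    have h1 := aS_eq (x := x) (y := y) (by rw [hx2]; norm_num) (by rw [hy2]; norm_num) hdist
    have h2 : th x y = τ := by
      have e1 : zt x = Complex.exp (((τ * j : ℝ) : ℂ) * Complex.I) := by
        apply Complex.ext
        · rw [Complex.exp_ofReal_mul_I_re]
          change Real.sin (Real.pi / 2) * Real.cos (τ * j) = _
          rw [Real.sin_pi_div_two, one_mul]
        · rw [Complex.exp_ofReal_mul_I_im]
          change Real.sin (Real.pi / 2) * Real.sin (τ * j) = _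
          rw [Real.sin_pi_div_two, one_mul]
      have e2 : zt y = Complex.exp (((τ * (j + 1 : ℕ) : ℝ) : ℂ) * Complex.I) := by
        apply Complex.ext
        · rw [Complex.exp_ofReal_mul_I_re]
          change Real.sin (Real.pi / 2) * Real.cos (τ * (j + 1 : ℕ)) = _
          rw [Real.sin_pi_div_two, one_mul]
        · rw [Complex.exp_ofReal_mul_I_im]
          change Real.sin (Real.pi / 2) * Real.sin (τ * (j + 1 : ℕ)) = _
          rw [Real.sin_pi_div_two, one_mul]
      unfold th Z
      rw [e1, e2, ← Complex.exp_conj, ← Complex.exp_add, map_mul, Complex.conj_ofReal, Complex.conj_I]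
      have e3 : ((τ * (j : ℝ) : ℝ) : ℂ) * -Complex.I + ((τ * ((j + 1 : ℕ) : ℝ) : ℝ) : ℂ) * Complex.I =
          ((τ : ℝ) : ℂ) * Complex.I := by
        push_cast
        ring
      rw [e3, Complex.arg_exp_mul_I, toIocMod_eq_self]
      constructor
      · linarith [Real.pi_pos]
      · have : τ < 1 / 16 := by linarith
        linarith [Real.pi_gt_three]
    rw [h1, h2]
    ring
  rw [Finset.sum_congr rfl hterm, Finset.sum_const, card_range, nsmul_eq_mul] at hsub
  have : (n : ℝ) * τ = 2 * Real.pi := by rw [hτ]; field_simp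
  rw [this] at hsub
  linarith [Real.pi_pos]

/-! ### alternation and continuity -/

theorem c2_abs (x : S2) : |c2 x| ≤ 1 := by
  refine abs_le_of_sq_le_sq ?_ zero_le_one
  have := nsq x
  unfold c2
  nlinarith [sq_nonneg (x.1 0), sq_nonneg (x.1 1)]

theorem Z_symm (x y : S2) : Z y x = starRingEnd ℂ (Z x y) := by
  unfold Z
  rw [map_mul, Complex.conj_conj, mul_comm]

theorem PN_symm (x y : S2) : PN y x = starRingEnd ℂ (PN x y) := by
  unfold PN
  rw [map_add, Complex.conj_ofReal, Z_symm x y, mul_comm (1 + c2 y)]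

theorem PS_symm (x y : S2) : PS y x = starRingEnd ℂ (PS x y) := by
  unfold PS
  rw [map_add, Complex.conj_ofReal, Z_symm x y, mul_comm (1 - c2 y)]

theorem aN_symm {x y : S2} (hx : -(1 / 2) < c2 x) (hy : -(1 / 2) < c2 y) (h : dist x y < del) :
    aN y x = -aN x y := by
  unfold aN
  rw [PN_symm, arg_conj_pos (PN_re hx hy h)]

theorem aS_symm {x y : S2} (hx : c2 x < 1 / 2) (hy : c2 y < 1 / 2) (h : dist x y < del) :
    aS y x = -aS x y := by
  unfold aS
  rw [PS_symm, arg_conj_pos (PS_re hx hy h)]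

/-- exchange of the first two points of a near triple -/
theorem al_swap12 {x y z : S2} (hxy : dist x y < del) (hyz : dist y z < del)
    (hxz : dist x z < del) : al y x z = -al x y z := by
  have h1 := (abs_le.1 (c2_near (x := x) (y := y)))
  have h2 := (abs_le.1 (c2_near (x := x) (y := z)))
  have hyx : dist y x < del := by rw [dist_comm]; exact hxy
  by_cases h : 0 ≤ c2 x
  · have hy : -(1 / 4) ≤ c2 y := by unfold del at hxy; linarith
    rw [al_N (by linarith) hxy hyz hxz, al_N hy hyx hxz hyz]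
    have := aN_symm (x := x) (y := y) (by linarith) (by linarith) hxy
    unfold dd
    linarith
  · push Not at h
    have hy : c2 y ≤ 1 / 4 := by unfold del at hxy; linarith
    rw [al_S (by linarith) hxy hyz hxz, al_S hy hyx hxz hyz]
    have := aS_symm (x := x) (y := y) (by linarith) (by linarith) hxy
    unfold dd
    linarith

/-- exchange of the last two points of a near triple -/
theorem al_swap23 {x y z : S2} (hxy : dist x y < del) (hyz : dist y z < del)
    (hxz : dist x z < del) : al x z y = -al x y z := by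
  have h1 := (abs_le.1 (c2_near (x := x) (y := y)))
  have h2 := (abs_le.1 (c2_near (x := x) (y := z)))
  have hzy : dist z y < del := by rw [dist_comm]; exact hyz
  by_cases h : 0 ≤ c2 x
  · have hy : -(1 / 4) ≤ c2 y := by unfold del at hxy; linarith
    have hz : -(1 / 4) ≤ c2 z := by unfold del at hxz; linarith
    rw [al_N (by linarith) hxy hyz hxz, al_N (by linarith) hxz hzy hxy]
    have := aN_symm (x := y) (y := z) (by linarith) (by linarith) hyz
    unfold dd
    linarith
  · push Not at h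
    have hy : c2 y ≤ 1 / 4 := by unfold del at hxy; linarith
    have hz : c2 z ≤ 1 / 4 := by unfold del at hxz; linarith
    rw [al_S (by linarith) hxy hyz hxz, al_S (by linarith) hxz hzy hxy]
    have := aS_symm (x := y) (y := z) (by linarith) (by linarith) hyz
    unfold dd
    linarith

theorem continuous_c2 : Continuous c2 := by
  unfold c2
  exact (EuclideanSpace.proj (𝕜 := ℝ) (2 : Fin 3)).continuous.comp continuous_subtype_val

theorem continuous_zt : Continuous zt := by
  have h : zt = fun x : S2 => ((x.1 0 : ℝ) : ℂ) + ((x.1 1 : ℝ) : ℂ) * Complex.I := by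
    funext x
    apply Complex.ext <;> simp [zt]
  rw [h]
  exact (Complex.continuous_ofReal.comp ((EuclideanSpace.proj (𝕜 := ℝ) (0 : Fin 3)).continuous.comp
    continuous_subtype_val)).add ((Complex.continuous_ofReal.comp ((EuclideanSpace.proj (𝕜 := ℝ)
    (1 : Fin 3)).continuous.comp continuous_subtype_val)).mul continuous_const)

theorem continuous_Z : Continuous fun p : S2 × S2 => Z p.1 p.2 := by
  unfold Z
  exact (Complex.continuous_conj.comp (continuous_zt.comp continuous_fst)).mul
    (continuous_zt.comp continuous_snd)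

theorem continuous_PN : Continuous fun p : S2 × S2 => PN p.1 p.2 := by
  unfold PN
  exact (Complex.continuous_ofReal.comp ((continuous_const.add (continuous_c2.comp continuous_fst)).mul
    (continuous_const.add (continuous_c2.comp continuous_snd)))).add continuous_Z

theorem continuous_PS : Continuous fun p : S2 × S2 => PS p.1 p.2 := by
  unfold PS
  exact (Complex.continuous_ofReal.comp ((continuous_const.sub (continuous_c2.comp continuous_fst)).mul
    (continuous_const.sub (continuous_c2.comp continuous_snd)))).add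
    (Complex.continuous_conj.comp continuous_Z)

theorem aN_cont {x y : S2} (hx : -(1 / 2) < c2 x) (hy : -(1 / 2) < c2 y) (h : dist x y < del) :
    ContinuousAt (fun p : S2 × S2 => aN p.1 p.2) (x, y) :=
  ContinuousAt.comp (f := fun p : S2 × S2 => PN p.1 p.2) (g := Complex.arg) (x := (x, y))
    (Complex.continuousAt_arg (Or.inl (PN_re hx hy h))) continuous_PN.continuousAt

theorem aS_cont {x y : S2} (hx : c2 x < 1 / 2) (hy : c2 y < 1 / 2) (h : dist x y < del) :
    ContinuousAt (fun p : S2 × S2 => aS p.1 p.2) (x, y) :=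
  ContinuousAt.comp (f := fun p : S2 × S2 => PS p.1 p.2) (g := Complex.arg) (x := (x, y))
    (Complex.continuousAt_arg (Or.inl (PS_re hx hy h))) continuous_PS.continuousAt

theorem dd_cont {X : Type*} [TopologicalSpace X] {f : X → X → ℝ} {x y z : X}
    (h1 : ContinuousAt (fun p : X × X => f p.1 p.2) (x, y))
    (h2 : ContinuousAt (fun p : X × X => f p.1 p.2) (y, z))
    (h3 : ContinuousAt (fun p : X × X => f p.1 p.2) (x, z)) :
    ContinuousAt (fun t : X × X × X => dd f t.1 t.2.1 t.2.2) (x, y, z) := by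
  have p12 : Filter.Tendsto (fun t : X × X × X => (t.1, t.2.1)) (nhds (x, y, z)) (nhds (x, y)) :=
    (Continuous.prodMk continuous_fst (continuous_fst.comp continuous_snd)).tendsto (x, y, z)
  have p23 : Filter.Tendsto (fun t : X × X × X => (t.2.1, t.2.2)) (nhds (x, y, z)) (nhds (y, z)) :=
    (Continuous.prodMk (continuous_fst.comp continuous_snd)
      (continuous_snd.comp continuous_snd)).tendsto (x, y, z)
  have p13 : Filter.Tendsto (fun t : X × X × X => (t.1, t.2.2)) (nhds (x, y, z)) (nhds (x, z)) :=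
    (Continuous.prodMk continuous_fst (continuous_snd.comp continuous_snd)).tendsto (x, y, z)
  have k1 := Filter.Tendsto.comp h1 p12
  have k2 := Filter.Tendsto.comp h2 p23
  have k3 := Filter.Tendsto.comp h3 p13
  exact (k2.sub k3).add k1

theorem near_nhds {X : Type*} [PseudoMetricSpace X] {x y z : X} {δ : ℝ} (hxy : dist x y < δ)
    (hyz : dist y z < δ) (hxz : dist x z < δ) :
    ∀ᶠ t : X × X × X in nhds (x, y, z), dist t.1 t.2.1 < δ ∧ dist t.2.1 t.2.2 < δ ∧
      dist t.1 t.2.2 < δ := by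
  have e1 : Continuous fun t : X × X × X => dist t.1 t.2.1 :=
    continuous_fst.dist (continuous_fst.comp continuous_snd)
  have e2 : Continuous fun t : X × X × X => dist t.2.1 t.2.2 :=
    (continuous_fst.comp continuous_snd).dist (continuous_snd.comp continuous_snd)
  have e3 : Continuous fun t : X × X × X => dist t.1 t.2.2 :=
    continuous_fst.dist (continuous_snd.comp continuous_snd)
  have f1 := (isOpen_lt e1 (continuous_const (y := δ))).mem_nhds (x := (x, y, z)) hxy
  have f2 := (isOpen_lt e2 (continuous_const (y := δ))).mem_nhds (x := (x, y, z)) hyz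
  have f3 := (isOpen_lt e3 (continuous_const (y := δ))).mem_nhds (x := (x, y, z)) hxz
  filter_upwards [f1, f2, f3] with t g1 g2 g3
  exact ⟨g1, g2, g3⟩

/-- `al` is continuous at the near triples -/
theorem al_cont {x y z : S2} (hxy : dist x y < del) (hyz : dist y z < del)
    (hxz : dist x z < del) :
    ContinuousAt (fun t : S2 × S2 × S2 => al t.1 t.2.1 t.2.2) (x, y, z) := by
  have hnear := near_nhds hxy hyz hxz
  have hc : Continuous fun t : S2 × S2 × S2 => c2 t.1 := continuous_c2.comp continuous_fst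
  have h1 := (abs_le.1 (c2_near (x := x) (y := y)))
  have h2 := (abs_le.1 (c2_near (x := x) (y := z)))
  by_cases h : 0 ≤ c2 x
  · have hx0 : -(1 / 4) < c2 x := by linarith
    have hx := (isOpen_lt (continuous_const (y := -(1 / 4 : ℝ))) hc).mem_nhds (x := (x, y, z)) hx0
    have hx1 : -(1 / 2) < c2 x := by linarith
    have hy : -(1 / 2) < c2 y := by unfold del at hxy; linarith
    have hz : -(1 / 2) < c2 z := by unfold del at hxz; linarith
    have hcont := dd_cont (f := aN) (aN_cont hx1 hy hxy) (aN_cont hy hz hyz) (aN_cont hx1 hz hxz)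
    refine hcont.congr ?_
    filter_upwards [hnear, hx] with t ht1 ht2
    exact (al_N (le_of_lt ht2) ht1.1 ht1.2.1 ht1.2.2).symm
  · push Not at h
    have hx0 : c2 x < 1 / 4 := by linarith
    have hx := (isOpen_lt hc (continuous_const (y := (1 / 4 : ℝ)))).mem_nhds (x := (x, y, z)) hx0
    have hx1 : c2 x < 1 / 2 := by linarith
    have hy : c2 y < 1 / 2 := by unfold del at hxy; linarith
    have hz : c2 z < 1 / 2 := by unfold del at hxz; linarith
    have hcont := dd_cont (f := aS) (aS_cont hx1 hy hxy) (aS_cont hy hz hyz) (aS_cont hx1 hz hxz)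
    refine hcont.congr ?_
    filter_upwards [hnear, hx] with t ht1 ht2
    exact (al_S (le_of_lt ht2) ht1.1 ht1.2.1 ht1.2.2).symm

/-! ### two classes on the product -/

theorem al_self (x : S2) : al x x x = 0 := by
  have h := al_swap12 (x := x) (y := x) (z := x) (by simp [del]) (by simp [del]) (by simp [del])
  linarith

/-- the combination of the two area cocycles -/
def comb (a b : ℝ) (x y z : S2 × S2) : ℝ := a * al x.1 y.1 z.1 + b * al x.2 y.2 z.2

theorem comb_cocycle (a b : ℝ) {x y z w : S2 × S2} (hxy : dist x y < del) (hxz : dist x z < del)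
    (hxw : dist x w < del) (hyz : dist y z < del) (hyw : dist y w < del) (hzw : dist z w < del) :
    comb a b y z w - comb a b x z w + comb a b x y w - comb a b x y z = 0 := by
  have f1 : ∀ {p q : S2 × S2}, dist p q < del → dist p.1 q.1 < del := fun {p q} h =>
    lt_of_le_of_lt (le_max_left _ _) h
  have f2 : ∀ {p q : S2 × S2}, dist p q < del → dist p.2 q.2 < del := fun {p q} h =>
    lt_of_le_of_lt (le_max_right _ _) h
  have h1 := al_cocycle (f1 hxy) (f1 hxz) (f1 hxw) (f1 hyz) (f1 hyw) (f1 hzw)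
  have h2 := al_cocycle (f2 hxy) (f2 hxz) (f2 hxw) (f2 hyz) (f2 hyw) (f2 hzw)
  unfold comb
  linear_combination a * h1 + b * h2

/-- **No non-zero combination of the two area cocycles is a coboundary near the diagonal.** -/
theorem comb_exact (a b : ℝ) (β : S2 × S2 → S2 × S2 → ℝ) (ε : ℝ) (hε : 0 < ε)
    (h : ∀ x y z : S2 × S2, dist x y < ε → dist y z < ε → dist x z < ε →
      comb a b x y z = dd β x y z) : a = 0 ∧ b = 0 := by
  have p : S2 := pt 1 (by norm_num) 0 0
  constructor
  · by_contra ha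
    obtain ⟨x, y, z, h1, h2, h3, h4⟩ := al_not_exact (fun x y => a⁻¹ * β (x, p) (y, p)) ε hε
    apply h4
    have h0 : dist p p < ε := by rw [dist_self]; exact hε
    have h5 := h (x, p) (y, p) (z, p) (max_lt h1 h0) (max_lt h2 h0) (max_lt h3 h0)
    unfold comb at h5
    simp only [al_self, mul_zero, add_zero] at h5
    unfold dd at *
    field_simp
    linarith
  · by_contra hb
    obtain ⟨x, y, z, h1, h2, h3, h4⟩ := al_not_exact (fun x y => b⁻¹ * β (p, x) (p, y)) ε hε
    apply h4
    have h0 : dist p p < ε := by rw [dist_self]; exact hε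
    have h5 := h (p, x) (p, y) (p, z) (max_lt h0 h1) (max_lt h0 h2) (max_lt h0 h3)
    unfold comb at h5
    simp only [al_self, mul_zero, zero_add] at h5
    unfold dd at *
    field_simp
    linarith

end Run7.h255.OQ
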