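import Pool.Agent.H472R3.Topo

/-!
# Project OQ (MP_74810d_gt): the manifold `S² × S²`

Charts in `ℝ⁴`, compactness, simple connectivity.
-/

set_option autoImplicit false

noncomputable section

open Metric

namespace Run7.h255.OQ

/-- the unit sphere of `ℝ³` -/
abbrev S2 : Type := sphere (0 : EuclideanSpace ℝ (Fin 3)) 1

instance factFinrank : Fact (Module.finrank ℝ (EuclideanSpace ℝ (Fin 3)) = 2 + 1) := ⟨by simp⟩

theorem rank4 : Module.finrank ℝ (EuclideanSpace ℝ (Fin 2) × EuclideanSpace ℝ (Fin 2)) =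
    Module.finrank ℝ (EuclideanSpace ℝ (Fin 4)) := by
  rw [Module.finrank_prod]
  simp

/-- `ℝ² × ℝ² ≃ ℝ⁴` -/
def e4 : (EuclideanSpace ℝ (Fin 2) × EuclideanSpace ℝ (Fin 2)) ≃ₜ EuclideanSpace ℝ (Fin 4) :=
  (ContinuousLinearEquiv.ofFinrankEq rank4 :
    (EuclideanSpace ℝ (Fin 2) × EuclideanSpace ℝ (Fin 2)) ≃L[ℝ] EuclideanSpace ℝ (Fin 4)).toHomeomorph

/-- charts of `S² × S²` in `ℝ⁴` -/
@[instance_reducible] def charted : ChartedSpace (EuclideanSpace ℝ (Fin 4)) (S2 × S2) :=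
  letI : ChartedSpace (EuclideanSpace ℝ (Fin 4))
      (ModelProd (EuclideanSpace ℝ (Fin 2)) (EuclideanSpace ℝ (Fin 2))) :=
    e4.toOpenPartialHomeomorph.singletonChartedSpace rfl
  ChartedSpace.comp (EuclideanSpace ℝ (Fin 4))
    (ModelProd (EuclideanSpace ℝ (Fin 2)) (EuclideanSpace ℝ (Fin 2))) (S2 × S2)

theorem sc : SimplyConnectedSpace (S2 × S2) := by
  have h : SimplyConnectedSpace S2 := Pool.Agent.H472R3.simplyConnected_sph 2 le_rfl
  exact Pool.Agent.H472R3.simplyConnected_prod _ _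

theorem compact : CompactSpace (S2 × S2) := inferInstance

theorem t2 : T2Space (S2 × S2) := inferInstance

theorem sec : SecondCountableTopology (S2 × S2) := inferInstance

end Run7.h255.OQ
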